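import Mathlib

set_option autoImplicit false

namespace Pool.Agent.Helper626.PosetAlg

open Set

/-- The poset algebra of `P`, as a Boolean subalgebra of the power set of `UpperSet P`. -/
abbrev F (P : Type) [Preorder P] : BooleanSubalgebra (Set (UpperSet P)) :=
  BooleanSubalgebra.closure (Set.range fun a : P => {U : UpperSet P | a ∈ U})

theorem gen_mem {P : Type} [Preorder P] (a : P) : {U : UpperSet P | a ∈ U} ∈ F P :=
  BooleanSubalgebra.subset_closure ⟨a, rfl⟩

theorem union_mem {P : Type} [Preorder P] {x y : Set (UpperSet P)} (hx : x ∈ F P) (hy : y ∈ F P) :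
    x ∪ y ∈ F P := BooleanSubalgebra.sup_mem hx hy

theorem inter_mem' {P : Type} [Preorder P] {x y : Set (UpperSet P)} (hx : x ∈ F P) (hy : y ∈ F P) :
    x ∩ y ∈ F P := BooleanSubalgebra.inf_mem hx hy

theorem compl_mem' {P : Type} [Preorder P] {x : Set (UpperSet P)} (hx : x ∈ F P) :
    xᶜ ∈ F P := BooleanSubalgebra.compl_mem hx

theorem diff_mem' {P : Type} [Preorder P] {x y : Set (UpperSet P)} (hx : x ∈ F P) (hy : y ∈ F P) :
    x \ y ∈ F P := BooleanSubalgebra.sdiff_mem hx hy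

theorem empty_mem' {P : Type} [Preorder P] : (∅ : Set (UpperSet P)) ∈ F P :=
  BooleanSubalgebra.bot_mem

theorem univ_mem' {P : Type} [Preorder P] : (Set.univ : Set (UpperSet P)) ∈ F P :=
  BooleanSubalgebra.top_mem

theorem const_mem {P : Type} [Preorder P] (c : Prop) : {_U : UpperSet P | c} ∈ F P := by
  by_cases h : c
  · simpa [h] using univ_mem'
  · simpa [h] using empty_mem'

theorem and_mem {P : Type} [Preorder P] {φ ψ : UpperSet P → Prop} (hx : {U | φ U} ∈ F P)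
    (hy : {U | ψ U} ∈ F P) : {U | φ U ∧ ψ U} ∈ F P := inter_mem' hx hy

theorem or_mem {P : Type} [Preorder P] {φ ψ : UpperSet P → Prop} (hx : {U | φ U} ∈ F P)
    (hy : {U | ψ U} ∈ F P) : {U | φ U ∨ ψ U} ∈ F P := union_mem hx hy

theorem not_mem' {P : Type} [Preorder P] {φ : UpperSet P → Prop} (hx : {U | φ U} ∈ F P) :
    {U | ¬ φ U} ∈ F P := compl_mem' hx

theorem forall_finset_mem {P : Type} [Preorder P] {ι : Type} (s : Finset ι)
    (φ : ι → UpperSet P → Prop) (h : ∀ i ∈ s, {U | φ i U} ∈ F P) :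
    {U | ∀ i ∈ s, φ i U} ∈ F P := by
  classical
  induction s using Finset.induction_on with
  | empty => simpa using univ_mem'
  | insert a s ha ih =>
    have h1 := and_mem (h a (Finset.mem_insert_self a s))
      (ih fun i hi => h i (Finset.mem_insert_of_mem hi))
    have : {U | ∀ i ∈ insert a s, φ i U} = {U | φ a U ∧ ∀ i ∈ s, φ i U} := by
      ext U; simp
    rw [this]; exact h1

/-- If all generators have preimage in `F W`, so do all elements of `F P`. -/
theorem preimage_mem {P W : Type} [Preorder P] [Preorder W] (g : UpperSet W → UpperSet P)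
    (hg : ∀ p : P, {U | p ∈ g U} ∈ F W) : ∀ x ∈ F P, g ⁻¹' x ∈ F W := by
  intro x hx
  let L : BooleanSubalgebra (Set (UpperSet P)) :=
    { carrier := {x | g ⁻¹' x ∈ F W}
      supClosed' := fun a ha b hb => union_mem (P := W) ha hb
      infClosed' := fun a ha b hb => inter_mem' (P := W) ha hb
      bot_mem' := empty_mem' (P := W)
      compl_mem' := fun {a} ha => compl_mem' (P := W) ha }
  have : F P ≤ L := by
    rw [BooleanSubalgebra.closure_le]
    rintro _ ⟨p, rfl⟩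
    exact hg p
  exact this hx

/-- pullback of an upper set along a monotone map -/
def pull {P W : Type} [Preorder P] [Preorder W] (m : P → W) (hm : Monotone m) (U : UpperSet W) :
    UpperSet P := ⟨m ⁻¹' (U : Set W), fun _ _ hab ha => U.upper (hm hab) ha⟩

@[simp] theorem mem_pull {P W : Type} [Preorder P] [Preorder W] (m : P → W) (hm : Monotone m)
    (U : UpperSet W) (p : P) : p ∈ pull m hm U ↔ m p ∈ U := Iff.rfl

theorem pull_preimage_mem {P W : Type} [Preorder P] [Preorder W] (m : P → W) (hm : Monotone m)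
    (x : Set (UpperSet P)) (hx : x ∈ F P) : (pull m hm) ⁻¹' x ∈ F W :=
  preimage_mem _ (fun p => gen_mem (m p)) x hx

theorem pull_pred_mem {P W : Type} [Preorder P] [Preorder W] (m : P → W) (hm : Monotone m)
    {φ : UpperSet P → Prop} (hx : {U | φ U} ∈ F P) : {U | φ (pull m hm U)} ∈ F W :=
  pull_preimage_mem m hm _ hx

/-- `V` is an upper subset relative to `S`. -/
def RU {P : Type} [Preorder P] (S V : Set P) : Prop := V ⊆ S ∧ ∀ p ∈ V, ∀ q ∈ S, p ≤ q → q ∈ V

/-- The space of relative upper subsets of `S` is a continuous image of the space of upper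
sets of a well quasi order. -/
def Good {P : Type} [Preorder P] (S : Set P) : Prop :=
  ∃ (W : Type) (_ : Preorder W), WellQuasiOrdered (fun x y : W => x ≤ y) ∧
    ∃ g : UpperSet W → Set P, (∀ p, {U : UpperSet W | p ∈ g U} ∈ F W) ∧
      (∀ U, RU S (g U)) ∧ ∀ V, RU S V → ∃ U, g U = V

theorem good_mono {P : Type} [Preorder P] {S S' : Set P} (h : S' ⊆ S) (hS : Good S) : Good S' := by
  obtain ⟨W, iW, hW, g, hg1, hg2, hg3⟩ := hS
  refine ⟨W, iW, hW, fun U => g U ∩ S', ?_, ?_, ?_⟩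
  · intro p
    exact and_mem (hg1 p) (const_mem (p ∈ S'))
  · intro U
    refine ⟨Set.inter_subset_right, ?_⟩
    rintro p ⟨hp, hpS⟩ q hq hpq
    exact ⟨(hg2 U).2 p hp q (h hq) hpq, hq⟩
  · intro V hV
    have h1 : RU S {q | q ∈ S ∧ ∃ p ∈ V, p ≤ q} := by
      refine ⟨fun q hq => hq.1, ?_⟩
      rintro p ⟨_, r, hr, hrp⟩ q hq hpq
      exact ⟨hq, r, hr, hrp.trans hpq⟩
    obtain ⟨U, hU⟩ := hg3 _ h1
    refine ⟨U, ?_⟩
    show g U ∩ S' = V
    rw [hU]
    ext q
    constructor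
    · rintro ⟨⟨_, r, hr, hrq⟩, hq⟩
      exact hV.2 r hr q hq hrq
    · intro hq
      exact ⟨⟨h (hV.1 hq), q, hq, le_rfl⟩, hV.1 hq⟩

theorem good_dual {P : Type} [Preorder P] {S : Set P}
    (hS : Good (P := Pᵒᵈ) (OrderDual.ofDual ⁻¹' S)) : Good S := by
  obtain ⟨W, iW, hW, g, hg1, hg2, hg3⟩ := hS
  refine ⟨W, iW, hW, fun U => {p | p ∈ S ∧ OrderDual.toDual p ∉ g U}, ?_, ?_, ?_⟩
  · intro p
    exact and_mem (const_mem (p ∈ S)) (not_mem' (hg1 (OrderDual.toDual p)))
  · intro U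
    refine ⟨fun p hp => hp.1, ?_⟩
    rintro p ⟨hp, hpU⟩ q hq hpq
    refine ⟨hq, fun hqU => hpU ?_⟩
    exact (hg2 U).2 (OrderDual.toDual q) hqU (OrderDual.toDual p) hp hpq
  · intro V hV
    have h1 : RU (P := Pᵒᵈ) (OrderDual.ofDual ⁻¹' S)
        {q | OrderDual.ofDual q ∈ S ∧ OrderDual.ofDual q ∉ V} := by
      refine ⟨fun q hq => hq.1, ?_⟩
      rintro p ⟨hp, hpV⟩ q hq hpq
      exact ⟨hq, fun hqV => hpV (hV.2 _ hqV _ hp hpq)⟩
    obtain ⟨U, hU⟩ := hg3 _ h1
    refine ⟨U, ?_⟩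
    ext p
    show (p ∈ S ∧ OrderDual.toDual p ∉ g U) ↔ p ∈ V
    rw [hU]
    constructor
    · rintro ⟨hp, hp2⟩
      by_contra hpV
      exact hp2 ⟨hp, hpV⟩
    · intro hp
      exact ⟨hV.1 hp, fun h => h.2 hp⟩

theorem good_dual' {P : Type} [Preorder P] {S : Set P}
    (hS : Good S) : Good (P := Pᵒᵈ) (OrderDual.ofDual ⁻¹' S) := by
  obtain ⟨W, iW, hW, g, hg1, hg2, hg3⟩ := hS
  refine ⟨W, iW, hW, fun U => {p | OrderDual.ofDual p ∈ S ∧ OrderDual.ofDual p ∉ g U}, ?_, ?_, ?_⟩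
  · intro p
    exact and_mem (const_mem (OrderDual.ofDual p ∈ S)) (not_mem' (hg1 (OrderDual.ofDual p)))
  · intro U
    refine ⟨fun p hp => hp.1, ?_⟩
    rintro p ⟨hp, hpU⟩ q hq hpq
    refine ⟨hq, fun hqU => hpU ?_⟩
    exact (hg2 U).2 (OrderDual.ofDual q) hqU (OrderDual.ofDual p) hp hpq
  · intro V hV
    have h1 : RU S {q : P | q ∈ S ∧ OrderDual.toDual q ∉ V} := by
      refine ⟨fun q hq => hq.1, ?_⟩
      rintro p ⟨hp, hpV⟩ q hq hpq
      exact ⟨hq, fun hqV => hpV (hV.2 _ hqV _ hp hpq)⟩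
    obtain ⟨U, hU⟩ := hg3 _ h1
    refine ⟨U, ?_⟩
    ext p
    show (OrderDual.ofDual p ∈ S ∧ OrderDual.ofDual p ∉ g U) ↔ p ∈ V
    rw [hU]
    constructor
    · rintro ⟨hp, hp2⟩
      by_contra hpV
      exact hp2 ⟨hp, hpV⟩
    · intro hp
      exact ⟨hV.1 hp, fun h => h.2 hp⟩

/-- finite antichain condition -/
def FAC (P : Type) [Preorder P] : Prop :=
  ∀ s : ℕ → P, ∃ i j, i < j ∧ (s i ≤ s j ∨ s j ≤ s i)

theorem FAC.dual {P : Type} [Preorder P] (h : FAC P) : FAC Pᵒᵈ := by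
  intro s
  obtain ⟨i, j, hij, h1⟩ := h (fun n => OrderDual.ofDual (s n))
  exact ⟨i, j, hij, h1.symm⟩

end Pool.Agent.Helper626.PosetAlg
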