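import Pool.Agent.Helper626.PosetAlg.Greedy

set_option autoImplicit false

namespace Pool.Agent.Helper626.PosetAlg

open Set

/-- a preorder with a new bottom and a new top -/
inductive Blk (α : Type) : Type
  | bot : Blk α
  | mid : α → Blk α
  | top : Blk α

/-- the order of `Blk α` -/
inductive Blk.Le {α : Type} (r : α → α → Prop) : Blk α → Blk α → Prop
  | bot (b : Blk α) : Blk.Le r Blk.bot b
  | mid (a b : α) (h : r a b) : Blk.Le r (Blk.mid a) (Blk.mid b)
  | top (b : Blk α) : Blk.Le r b Blk.top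

theorem Blk.le_mid {α : Type} {r : α → α → Prop} {a : α} {c : Blk α}
    (h : Blk.Le r (Blk.mid a) c) : c = Blk.top ∨ ∃ b, c = Blk.mid b ∧ r a b := by
  cases h with
  | mid _ b h => exact Or.inr ⟨b, rfl, h⟩
  | top => exact Or.inl rfl

theorem Blk.le_top {α : Type} {r : α → α → Prop} {c : Blk α}
    (h : Blk.Le r Blk.top c) : c = Blk.top := by
  cases h with
  | top => exact rfl

theorem Blk.wqo {α : Type} (r : α → α → Prop) (h : WellQuasiOrdered r) :
    WellQuasiOrdered (Blk.Le r) := by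
  intro s
  by_contra hcon
  push Not at hcon
  have h1 : ∀ n, ∃ a, s (n + 1) = Blk.mid a := by
    intro n
    cases hs : s (n + 1) with
    | bot =>
      exfalso
      apply hcon (n + 1) (n + 2) (Nat.lt_succ_self _)
      rw [hs]; exact Blk.Le.bot _
    | mid a => exact ⟨a, rfl⟩
    | top =>
      exfalso
      apply hcon 0 (n + 1) (Nat.succ_pos _)
      rw [hs]; exact Blk.Le.top _
  choose a ha using h1
  obtain ⟨m, n, hmn, hr⟩ := h a
  apply hcon (m + 1) (n + 1) (Nat.succ_lt_succ hmn)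
  rw [ha, ha]
  exact Blk.Le.mid _ _ hr

/-- lexicographic sum of blocks -/
@[reducible] def sigmaPre {P : Type} [Preorder P] (C : Set P) (W : C → Type)
    (iW : ∀ l, Preorder (W l)) : Preorder (Σ l : C, Blk (W l)) where
  le := Sigma.Lex (fun a b : C => (a : P) < b) (fun l => Blk.Le (fun x y : W l => x ≤ y))
  le_refl := by
    rintro ⟨l, b⟩
    apply Sigma.Lex.right
    cases b with
    | bot => exact Blk.Le.bot _
    | mid a => exact Blk.Le.mid _ _ le_rfl
    | top => exact Blk.Le.top _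
  le_trans := by
    rintro ⟨l1, b1⟩ ⟨l2, b2⟩ ⟨l3, b3⟩ h1 h2
    cases h1 with
    | left _ _ h1 =>
      cases h2 with
      | left _ _ h2 => exact Sigma.Lex.left _ _ (lt_trans h1 h2)
      | right _ _ h2 => exact Sigma.Lex.left _ _ h1
    | right _ _ h1 =>
      cases h2 with
      | left _ _ h2 => exact Sigma.Lex.left _ _ h2
      | right _ _ h2 =>
        apply Sigma.Lex.right
        cases h1 with
        | bot => exact Blk.Le.bot _
        | mid a b h =>
          cases h2 with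
          | mid _ c h' => exact Blk.Le.mid _ _ (h.trans h')
          | top => exact Blk.Le.top _
        | top b =>
          cases h2 with
          | top => exact Blk.Le.top _

theorem sigma_wqo {P : Type} [PartialOrder P] (C : Set P)
    (hC : WellQuasiOrdered (fun a b : C => (a : P) ≤ b)) (W : C → Type)
    (iW : ∀ l, Preorder (W l)) (hW : ∀ l, WellQuasiOrdered (fun x y : W l => x ≤ y)) :
    WellQuasiOrdered (sigmaPre C W iW).le := by
  intro s
  have : IsPreorder C (fun a b : C => (a : P) ≤ b) :=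
    { refl := fun a => le_refl (a : P), trans := fun a b c => le_trans }
  obtain ⟨g, hg⟩ := hC.exists_monotone_subseq (fun n => (s n).1)
  by_cases h : ∃ m n, m < n ∧ ((s (g m)).1 : P) < (s (g n)).1
  · obtain ⟨m, n, hmn, h⟩ := h
    refine ⟨g m, g n, g.strictMono hmn, ?_⟩
    exact Sigma.Lex.left _ _ h
  · push Not at h
    have hconst : ∀ n, (s (g n)).1 = (s (g 0)).1 := by
      intro n
      rcases Nat.eq_zero_or_pos n with rfl | hn
      · rfl
      · have h1 := hg 0 n (Nat.zero_le n)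
        have h2 := h 0 n hn
        apply Subtype.ext
        by_contra hne
        exact h2 (lt_of_le_of_ne h1 (fun h => hne h.symm))
    have hb : ∀ n, ∃ b : Blk (W (s (g 0)).1), s (g n) = ⟨(s (g 0)).1, b⟩ := by
      intro n
      have := hconst n
      generalize s (g n) = z at this
      obtain ⟨l, b⟩ := z
      simp only at this
      subst this
      exact ⟨b, rfl⟩
    choose b hb using hb
    obtain ⟨m, n, hmn, hr⟩ := Blk.wqo _ (hW (s (g 0)).1) b
    refine ⟨g m, g n, g.strictMono hmn, ?_⟩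
    rw [hb m, hb n]
    exact Sigma.Lex.right _ _ hr

/-- The key gluing theorem. -/
theorem caseA {P : Type} [PartialOrder P] (hP : FAC P) (S : Set P)
    (hS : ∀ q ∈ S, Good (S \ {x | q ≤ x})) : Good S := by
  classical
  obtain ⟨C, hCS, hCw, hCwqo⟩ := greedy hP S
  let Qo : C → Set P := fun l =>
    {p | p ∈ S ∧ p ≤ l ∧ p ≠ l ∧ ∀ c ∈ C, c < (l : P) → ¬ p ≤ c}
  have hQ : ∀ l : C, Good (Qo l) := by
    intro l
    refine good_mono ?_ (hS l (hCS l.2))
    rintro p ⟨hp, hpl, hne, _⟩
    exact ⟨hp, fun h => hne (le_antisymm hpl h)⟩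
  choose W iW hW g hg1 hg2 hg3 using hQ
  letI : Preorder (Σ l : C, Blk (W l)) := sigmaPre C W iW
  have hmid : ∀ l : C, Monotone (fun w : W l => (⟨l, Blk.mid w⟩ : Σ l : C, Blk (W l))) := by
    intro l a b hab
    exact Sigma.Lex.right _ _ (Blk.Le.mid _ _ hab)
  -- minimal elements of `C` above `p`
  let M : P → Set C := fun p => {l | p ≤ l ∧ ∀ c ∈ C, c < (l : P) → ¬ p ≤ c}
  have hMfin : ∀ p, (M p).Finite := by
    intro p
    refine IsAntichain.finite_of_wellQuasiOrdered (r := fun a b : C => (a : P) ≤ b) ?_ hCwqo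
    intro a ha b hb hab h
    exact hb.2 a a.2 (lt_of_le_of_ne h (fun h' => hab (Subtype.ext h'))) ha.1
  have hMex : ∀ p : P, ∀ l : C, p ≤ l → ∃ l' ∈ M p, (l' : P) ≤ l := by
    intro p l hpl
    have wf : WellFounded (fun a b : C => (a : P) < b) := by
      have : IsPreorder C (fun a b : C => (a : P) ≤ b) :=
        { refl := fun a => le_refl (a : P), trans := fun a b c => le_trans }
      have h1 := hCwqo.wellFounded
      refine Subrelation.wf ?_ h1
      intro a b hab
      exact ⟨hab.le, not_le_of_gt hab⟩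
    have hne : ({c | p ≤ (c : P) ∧ (c : P) ≤ l} : Set C).Nonempty := ⟨l, hpl, le_rfl⟩
    refine ⟨wf.min _ hne, ⟨(wf.min_mem _ hne).1, ?_⟩, (wf.min_mem _ hne).2⟩
    intro c hc hlt hpc
    have hmem : (⟨c, hc⟩ : C) ∈ ({c | p ≤ (c : P) ∧ (c : P) ≤ l} : Set C) :=
      ⟨hpc, hlt.le.trans (wf.min_mem _ hne).2⟩
    exact wf.not_lt_min _ hmem hlt
  let ψ : UpperSet (Σ l : C, Blk (W l)) → C → P → Prop := fun V l p =>
    (⟨l, Blk.top⟩ : Σ l : C, Blk (W l)) ∈ V ∧ (p = l ∨ (⟨l, Blk.bot⟩ : Σ l : C, Blk (W l)) ∈ V ∨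
      p ∈ g l (pull _ (hmid l) V))
  refine ⟨Σ l : C, Blk (W l), inferInstance, sigma_wqo C hCwqo W iW hW,
    fun V => {p | p ∈ S ∧ ∀ l ∈ M p, ψ V l p}, ?_, ?_, ?_⟩
  · intro p
    refine and_mem (const_mem _) ?_
    have h1 := forall_finset_mem (P := Σ l : C, Blk (W l)) (hMfin p).toFinset
      (fun l V => ψ V l p) (by
        intro l _
        refine and_mem (gen_mem _) (or_mem (const_mem _) (or_mem (gen_mem _) ?_))
        exact pull_pred_mem _ (hmid l) (hg1 l p))
    convert h1 using 1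
    ext V
    simp only [Set.mem_setOf_eq, Set.Finite.mem_toFinset]
  · intro V
    refine ⟨fun p hp => hp.1, ?_⟩
    rintro p ⟨hpS, hp⟩ q hq hpq
    refine ⟨hq, ?_⟩
    intro l hl
    obtain ⟨l', hl', hll⟩ := hMex p l (hpq.trans hl.1)
    have h1 := hp l' hl'
    rcases eq_or_lt_of_le hll with heq | hlt
    · have heq' : l' = l := Subtype.ext heq
      subst heq'
      refine ⟨h1.1, ?_⟩
      rcases h1.2 with h2 | h2 | h2
      · left
        exact le_antisymm hl.1 (h2 ▸ hpq)
      · right; left; exact h2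
      · by_cases hql : q = l'
        · left; exact hql
        · right; right
          exact (hg2 l' _).2 p h2 q ⟨hq, hl.1, hql, hl.2⟩ hpq
    · have hup : ∀ b : Blk (W l), (⟨l, b⟩ : Σ l : C, Blk (W l)) ∈ V := by
        intro b
        refine V.upper (a := ⟨l', Blk.top⟩) ?_ h1.1
        exact Sigma.Lex.left _ _ hlt
      exact ⟨hup _, Or.inr (Or.inl (hup _))⟩
  · intro V hV
    have hU : ∀ l : C, ∃ U, g l U = V ∩ Qo l := by
      intro l
      apply hg3 l
      refine ⟨inter_subset_right, ?_⟩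
      rintro p ⟨hpV, hpQ⟩ q hq hpq
      exact ⟨hV.2 p hpV q hq.1 hpq, hq⟩
    choose U hU using hU
    let 𝒱 : UpperSet (Σ l : C, Blk (W l)) :=
      ⟨{z | (z.1 : P) ∈ V ∧ ((∃ c ∈ C, c < (z.1 : P) ∧ c ∈ V) ∨ z.2 = Blk.top ∨
        ∃ w ∈ U z.1, z.2 = Blk.mid w)}, by
        rintro ⟨l1, b1⟩ ⟨l2, b2⟩ h12 ⟨hz1, hz2⟩
        cases h12 with
        | left _ _ h =>
          exact ⟨hV.2 _ hz1 _ (hCS l2.2) h.le, Or.inl ⟨l1, l1.2, h, hz1⟩⟩
        | right _ _ h =>
          refine ⟨hz1, ?_⟩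
          rcases hz2 with hz2 | hz2 | ⟨w, hw, hz2⟩
          · exact Or.inl hz2
          · simp only at hz2
            rw [hz2] at h
            exact Or.inr (Or.inl (Blk.le_top h))
          · simp only at hz2
            rw [hz2] at h
            rcases Blk.le_mid h with h' | ⟨b, h', hwb⟩
            · exact Or.inr (Or.inl h')
            · exact Or.inr (Or.inr ⟨b, (U l1).upper hwb hw, h'⟩)⟩
    have hmem : ∀ z, z ∈ 𝒱 ↔ ((z.1 : P) ∈ V ∧ ((∃ c ∈ C, c < (z.1 : P) ∧ c ∈ V) ∨ z.2 = Blk.top ∨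
        ∃ w ∈ U z.1, z.2 = Blk.mid w)) := fun z => Iff.rfl
    have hpull : ∀ l : C, (l : P) ∈ V → (¬ ∃ c ∈ C, c < (l : P) ∧ c ∈ V) →
        pull _ (hmid l) 𝒱 = U l := by
      intro l hl hno
      ext w
      show (⟨l, Blk.mid w⟩ : Σ l : C, Blk (W l)) ∈ 𝒱 ↔ w ∈ U l
      rw [hmem]
      constructor
      · rintro ⟨_, h | h | ⟨w', hw', h⟩⟩
        · exact absurd h hno
        · simp at h
        · simp only [Blk.mid.injEq] at h
          rw [h]; exact hw'
      · intro hw
        exact ⟨hl, Or.inr (Or.inr ⟨w, hw, rfl⟩)⟩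
    refine ⟨𝒱, ?_⟩
    ext p
    constructor
    · rintro ⟨hpS, hp⟩
      have key : ∀ c : C, c ∈ M p → (∀ c' ∈ C, c' < (c : P) → c' ≤ p) → p ∈ V := by
        intro c hc hc2
        obtain ⟨h1, h2⟩ := hp c hc
        have hcV : (c : P) ∈ V := ((hmem _).1 h1).1
        by_cases hex : ∃ c' ∈ C, c' < (c : P) ∧ c' ∈ V
        · obtain ⟨c', hc', hlt, hc'V⟩ := hex
          exact hV.2 c' hc'V p hpS (hc2 c' hc' hlt)
        · rcases h2 with h2 | h2 | h2
          · rw [h2]; exact hcV
          · rcases ((hmem _).1 h2).2 with h3 | h3 | ⟨w, _, h3⟩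
            · exact absurd h3 hex
            · simp at h3
            · simp at h3
          · rw [hpull c hcV hex, hU c] at h2
            exact h2.1
      by_cases hpC : p ∈ C
      · refine key ⟨p, hpC⟩ ⟨le_rfl, ?_⟩ ?_
        · intro c _ hlt hle
          exact absurd hle (not_le_of_gt hlt)
        · intro c _ hlt
          exact hlt.le
      · obtain ⟨c, hc, hpc, hc2⟩ := hCw p hpS
        refine key ⟨c, hc⟩ ⟨hpc, ?_⟩ hc2
        intro c' hc' hlt hle
        have : c' = p := le_antisymm (hc2 c' hc' hlt) hle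
        exact hpC (this ▸ hc')
    · intro hp
      have hpS := hV.1 hp
      refine ⟨hpS, ?_⟩
      intro l hl
      have hlV : (l : P) ∈ V := hV.2 p hp l (hCS l.2) hl.1
      refine ⟨(hmem _).2 ⟨hlV, Or.inr (Or.inl rfl)⟩, ?_⟩
      by_cases hex : ∃ c' ∈ C, c' < (l : P) ∧ c' ∈ V
      · right; left
        exact (hmem _).2 ⟨hlV, Or.inl hex⟩
      · by_cases hpl : p = l
        · left; exact hpl
        · right; right
          rw [hpull l hlV hex, hU l]
          exact ⟨hp, hpS, hl.1, hpl, hl.2⟩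

end Pool.Agent.Helper626.PosetAlg
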