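import Pool.Agent.Helper626.PosetAlg.Basic

set_option autoImplicit false

namespace Pool.Agent.Helper626.PosetAlg

open Set

section rel

variable {P : Type} (r : P → P → Prop)

/-- `E` is bounded by a finite subset of `D` -/
def Bdd (D E : Set P) : Prop := ∃ T : Finset P, (∀ t ∈ T, t ∈ D) ∧ ∀ e ∈ E, ∃ t ∈ T, r e t

theorem bdd_bdd (hrefl : ∀ a, r a a) (htr : ∀ a b c, r a b → r b c → r a c)
    (hfac : ∀ s : ℕ → P, ∃ i j, i < j ∧ (r (s i) (s j) ∨ r (s j) (s i)))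
    (D E : Set P) :
    Bdd r D {e | e ∈ E ∧ Bdd r D {x | x ∈ E ∧ r e x}} := by
  classical
  by_contra hcon
  unfold Bdd at hcon
  push Not at hcon
  have hF : ∀ e : P, ∃ T : Finset P, Bdd r D {x | x ∈ E ∧ r e x} →
      ((∀ t ∈ T, t ∈ D) ∧ ∀ x, x ∈ E → r e x → ∃ t ∈ T, r x t) := by
    intro e
    by_cases h : Bdd r D {x | x ∈ E ∧ r e x}
    · obtain ⟨T, h1, h2⟩ := h
      exact ⟨T, fun _ => ⟨h1, fun x hx hex => h2 x ⟨hx, hex⟩⟩⟩
    · exact ⟨∅, fun h' => absurd h' h⟩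
  choose Fb hFb using hF
  obtain ⟨f, hf1, hf2⟩ := exists_seq_of_forall_finset_exists
    (fun x => x ∈ E ∧ Bdd r D {y | y ∈ E ∧ r x y}) (fun x y => ∀ t ∈ Fb x, ¬ r y t) (by
      intro s hs
      obtain ⟨e, he, he2⟩ := hcon (s.biUnion Fb) (by
        intro t ht
        rw [Finset.mem_biUnion] at ht
        obtain ⟨x, hx, hxt⟩ := ht
        exact (hFb x (hs x hx).2).1 t hxt)
      refine ⟨e, he, ?_⟩
      intro x hx t ht
      exact he2 t (Finset.mem_biUnion.2 ⟨x, hx, ht⟩))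
  obtain ⟨i, j, hij, h | h⟩ := hfac f
  · obtain ⟨t, ht, htr1⟩ := (hFb (f i) (hf1 i).2).2 (f j) (hf1 j).1 h
    exact hf2 i j hij t ht htr1
  · obtain ⟨t, ht, htr1⟩ := (hFb (f i) (hf1 i).2).2 (f i) (hf1 i).1 (hrefl _)
    exact hf2 i j hij t ht (htr _ _ _ h htr1)

theorem wf_bdd
    (hfac : ∀ s : ℕ → P, ∃ i j, i < j ∧ (r (s i) (s j) ∨ r (s j) (s i)))
    (D : Set P) :
    WellFounded (fun E₂ E₁ : Set P => E₁ ⊆ D ∧ E₂ ⊆ E₁ ∧ (∀ x ∈ E₂, ∀ y ∈ E₁, r y x → y ∈ E₂) ∧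
      ¬ Bdd r D (E₁ \ E₂)) := by
  classical
  rw [wellFounded_iff_isEmpty_descending_chain]
  refine ⟨?_⟩
  rintro ⟨E, hE⟩
  have hmono : ∀ n m, n ≤ m → E m ⊆ E n := by
    intro n m hnm
    induction m, hnm using Nat.le_induction with
    | base => exact subset_rfl
    | succ m _ ih => exact (hE m).2.1.trans ih
  obtain ⟨f, hf1, hf2⟩ := exists_seq_of_forall_finset_exists
    (fun z : ℕ × P => z.2 ∈ E z.1 ∧ z.2 ∉ E (z.1 + 1))
    (fun z w => z.1 < w.1 ∧ ¬ r w.2 z.2) (by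
      intro s hs
      let N := (s.image Prod.fst).sup id + 1
      have hN : ∀ z ∈ s, z.1 < N := by
        intro z hz
        have : id z.1 ≤ (s.image Prod.fst).sup id :=
          Finset.le_sup (f := id) (Finset.mem_image_of_mem _ hz)
        exact Nat.lt_succ_of_le this
      have h1 := (hE N).2.2.2
      unfold Bdd at h1
      push Not at h1
      obtain ⟨e, he, he2⟩ := h1 (s.image Prod.snd) (by
        intro t ht
        rw [Finset.mem_image] at ht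
        obtain ⟨z, hz, rfl⟩ := ht
        exact (hE z.1).1 (hs z hz).1)
      refine ⟨(N, e), ⟨he.1, he.2⟩, ?_⟩
      intro z hz
      exact ⟨hN z hz, he2 _ (Finset.mem_image_of_mem _ hz)⟩)
  obtain ⟨i, j, hij, h | h⟩ := hfac (fun n => (f n).2)
  · apply (hf1 i).2
    refine (hE (f i).1).2.2.1 (f j).2 ?_ (f i).2 (hf1 i).1 h
    exact hmono ((f i).1 + 1) (f j).1 (hf2 i j hij).1 (hf1 j).1
  · exact (hf2 i j hij).2 h

end rel

section rect

variable {P : Type} [Preorder P]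

/-- The relation between `E` and `G` is a finite union of rectangles, modulo bounded pieces. -/
def OKP (D U E G : Set P) : Prop :=
  ∃ Q T : Finset P, (∀ q ∈ Q, q ∈ D) ∧ (∀ t ∈ T, t ∈ U) ∧
    ∃ L : List (Set P × Set P), (∀ IJ ∈ L, ∀ i ∈ IJ.1, ∀ j ∈ IJ.2, i ≤ j) ∧
      ∀ d ∈ E, ∀ u ∈ G, d ≤ u → (∃ q ∈ Q, d ≤ q) ∨ (∃ t ∈ T, t ≤ u) ∨ ∃ IJ ∈ L, d ∈ IJ.1 ∧ u ∈ IJ.2

theorem okp_comb {D U E G E₁ G₁ E₂ G₂ : Set P} (h1 : OKP D U E₁ G₁) (h2 : OKP D U E₂ G₂)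
    (h : ∀ d ∈ E, ∀ u ∈ G, d ≤ u → (d ∈ E₁ ∧ u ∈ G₁) ∨ (d ∈ E₂ ∧ u ∈ G₂)) : OKP D U E G := by
  classical
  obtain ⟨Q1, T1, hQ1, hT1, L1, hL1, hc1⟩ := h1
  obtain ⟨Q2, T2, hQ2, hT2, L2, hL2, hc2⟩ := h2
  refine ⟨Q1 ∪ Q2, T1 ∪ T2, ?_, ?_, L1 ++ L2, ?_, ?_⟩
  · intro q hq
    rcases Finset.mem_union.1 hq with hq | hq
    exacts [hQ1 q hq, hQ2 q hq]
  · intro q hq
    rcases Finset.mem_union.1 hq with hq | hq
    exacts [hT1 q hq, hT2 q hq]
  · intro IJ hIJ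
    rcases List.mem_append.1 hIJ with hIJ | hIJ
    exacts [hL1 IJ hIJ, hL2 IJ hIJ]
  · intro d hd u hu hdu
    rcases h d hd u hu hdu with ⟨hd', hu'⟩ | ⟨hd', hu'⟩
    · rcases hc1 d hd' u hu' hdu with ⟨q, hq, hdq⟩ | ⟨t, ht, htu⟩ | ⟨IJ, hIJ, h3⟩
      · exact Or.inl ⟨q, Finset.mem_union_left _ hq, hdq⟩
      · exact Or.inr (Or.inl ⟨t, Finset.mem_union_left _ ht, htu⟩)
      · exact Or.inr (Or.inr ⟨IJ, List.mem_append_left _ hIJ, h3⟩)
    · rcases hc2 d hd' u hu' hdu with ⟨q, hq, hdq⟩ | ⟨t, ht, htu⟩ | ⟨IJ, hIJ, h3⟩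
      · exact Or.inl ⟨q, Finset.mem_union_right _ hq, hdq⟩
      · exact Or.inr (Or.inl ⟨t, Finset.mem_union_right _ ht, htu⟩)
      · exact Or.inr (Or.inr ⟨IJ, List.mem_append_right _ hIJ, h3⟩)

theorem rect_aux (hfac : FAC P) (D U : Set P) :
    ∀ E : Set P, E ⊆ D → ∀ G : Set P, G ⊆ U → OKP D U E G := by
  have wfD := wf_bdd (fun a b : P => a ≤ b) hfac D
  have hfac' : ∀ s : ℕ → P, ∃ i j, i < j ∧ (s j ≤ s i ∨ s i ≤ s j) := by
    intro s
    obtain ⟨i, j, hij, h⟩ := hfac s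
    exact ⟨i, j, hij, h.symm⟩
  have wfU := wf_bdd (fun a b : P => b ≤ a) hfac' U
  intro E
  induction E using wfD.induction with
  | _ E ihE =>
    intro hE G
    induction G using wfU.induction with
    | _ G ihG =>
      intro hG
      by_cases hcase : ∃ d₀ ∈ E, ∃ u₀ ∈ G, ¬ Bdd (fun a b : P => a ≤ b) D {x | x ∈ E ∧ d₀ ≤ x} ∧
          ¬ Bdd (fun a b : P => b ≤ a) U {x | x ∈ G ∧ x ≤ u₀} ∧ ¬ d₀ ≤ u₀
      · obtain ⟨d₀, hd₀, u₀, hu₀, h1, h2, h3⟩ := hcase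
        have hA : OKP D U (E \ {x | d₀ ≤ x}) G := by
          refine ihE _ ⟨hE, diff_subset, ?_, ?_⟩ (diff_subset.trans hE) G hG
          · intro x hx y hy hyx
            exact ⟨hy, fun h => hx.2 (le_trans h hyx)⟩
          · have : E \ (E \ {x | d₀ ≤ x}) = {x | x ∈ E ∧ d₀ ≤ x} := by
              ext x
              simp only [mem_diff, Set.mem_setOf_eq, not_and, not_not]
              constructor
              · rintro ⟨hx, hx2⟩; exact ⟨hx, hx2 hx⟩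
              · rintro ⟨hx, hx2⟩; exact ⟨hx, fun _ => hx2⟩
            rw [this]; exact h1
        have hB : OKP D U E (G \ {x | x ≤ u₀}) := by
          refine ihG _ ⟨hG, diff_subset, ?_, ?_⟩ (diff_subset.trans hG)
          · intro x hx y hy hyx
            exact ⟨hy, fun h => hx.2 (le_trans hyx h)⟩
          · have : G \ (G \ {x | x ≤ u₀}) = {x | x ∈ G ∧ x ≤ u₀} := by
              ext x
              simp only [mem_diff, Set.mem_setOf_eq, not_and, not_not]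
              constructor
              · rintro ⟨hx, hx2⟩; exact ⟨hx, hx2 hx⟩
              · rintro ⟨hx, hx2⟩; exact ⟨hx, fun _ => hx2⟩
            rw [this]; exact h2
        refine okp_comb hA hB ?_
        intro d hd u hu hdu
        by_cases hd2 : d₀ ≤ d
        · by_cases hu2 : u ≤ u₀
          · exact absurd (hd2.trans (hdu.trans hu2)) h3
          · exact Or.inr ⟨hd, hu, hu2⟩
        · exact Or.inl ⟨⟨hd, hd2⟩, hu⟩
      · push Not at hcase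
        obtain ⟨Q, hQ1, hQ2⟩ := bdd_bdd (fun a b : P => a ≤ b) (fun a => le_refl a)
          (fun a b c => le_trans) hfac D E
        obtain ⟨T, hT1, hT2⟩ := bdd_bdd (fun a b : P => b ≤ a) (fun a => le_refl a)
          (fun a b c h1 h2 => le_trans h2 h1) hfac' U G
        refine ⟨Q, T, hQ1, hT1,
          [({x | x ∈ E ∧ ¬ Bdd (fun a b : P => a ≤ b) D {y | y ∈ E ∧ x ≤ y}},
            {x | x ∈ G ∧ ¬ Bdd (fun a b : P => b ≤ a) U {y | y ∈ G ∧ y ≤ x}})], ?_, ?_⟩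
        · intro IJ hIJ
          rw [List.mem_singleton] at hIJ
          subst hIJ
          rintro i ⟨hi1, hi2⟩ j ⟨hj1, hj2⟩
          exact hcase i hi1 j hj1 hi2 hj2
        · intro d hd u hu hdu
          by_cases h1 : Bdd (fun a b : P => a ≤ b) D {y | y ∈ E ∧ d ≤ y}
          · left
            exact hQ2 d ⟨hd, h1⟩
          · by_cases h2 : Bdd (fun a b : P => b ≤ a) U {y | y ∈ G ∧ y ≤ u}
            · right; left
              exact hT2 u ⟨hu, h2⟩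
            · right; right
              exact ⟨_, List.mem_singleton.2 rfl, ⟨hd, h1⟩, ⟨hu, h2⟩⟩

theorem rect (hfac : FAC P) (D U : Set P) : OKP D U D U :=
  rect_aux hfac D U D subset_rfl U subset_rfl

end rect

end Pool.Agent.Helper626.PosetAlg
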