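import Pool.Agent.Helper626.PosetAlg.CaseA
import Pool.Agent.Helper626.PosetAlg.Rect

set_option autoImplicit false

namespace Pool.Agent.Helper626.PosetAlg

open Set

/-- `x` is covered by a continuous image of the space of upper sets of a wqo -/
def Cov {P : Type} [Preorder P] (x : Set (UpperSet P)) : Prop :=
  ∃ (W : Type) (_ : Preorder W), WellQuasiOrdered (fun a b : W => a ≤ b) ∧
    ∃ g : UpperSet W → UpperSet P, (∀ p, {U : UpperSet W | p ∈ g U} ∈ F W) ∧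
      ∀ V ∈ x, ∃ U, g U = V

theorem cov_mono {P : Type} [Preorder P] {x y : Set (UpperSet P)} (h : x ⊆ y) (hy : Cov y) :
    Cov x := by
  obtain ⟨W, iW, hW, g, hg1, hg2⟩ := hy
  exact ⟨W, iW, hW, g, hg1, fun V hV => hg2 V (h hV)⟩

theorem cov_empty {P : Type} [Preorder P] : Cov (∅ : Set (UpperSet P)) := by
  refine ⟨Unit, inferInstance, Finite.wellQuasiOrdered _, fun _ => ⊤, ?_, by simp⟩
  intro p
  exact const_mem _

/-- glue two upper sets -/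
def mkSum {W₁ W₂ : Type} [Preorder W₁] [Preorder W₂] (U₁ : UpperSet W₁) (U₂ : UpperSet W₂) :
    UpperSet (W₁ ⊕ W₂) :=
  ⟨{z | Sum.elim (fun w => w ∈ U₁) (fun w => w ∈ U₂) z}, by
    intro a b hab ha
    cases hab with
    | inl h => exact U₁.upper h ha
    | inr h => exact U₂.upper h ha⟩

theorem pull_inl_mkSum {W₁ W₂ : Type} [Preorder W₁] [Preorder W₂] (U₁ : UpperSet W₁)
    (U₂ : UpperSet W₂) : pull Sum.inl Sum.inl_mono (mkSum U₁ U₂) = U₁ := by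
  ext w
  exact Iff.rfl

theorem pull_inr_mkSum {W₁ W₂ : Type} [Preorder W₁] [Preorder W₂] (U₁ : UpperSet W₁)
    (U₂ : UpperSet W₂) : pull Sum.inr Sum.inr_mono (mkSum U₁ U₂) = U₂ := by
  ext w
  exact Iff.rfl

theorem sum_wqo {W₁ W₂ : Type} [Preorder W₁] [Preorder W₂]
    (h1 : WellQuasiOrdered (fun a b : W₁ => a ≤ b))
    (h2 : WellQuasiOrdered (fun a b : W₂ => a ≤ b)) :
    WellQuasiOrdered (fun a b : W₁ ⊕ W₂ => a ≤ b) := by
  intro s
  have : IsTrans (W₁ ⊕ W₂) (fun x y => x.isLeft = y.isLeft) := ⟨fun _ _ _ h1 h2 => h1.trans h2⟩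
  obtain ⟨g, hg | hg⟩ := exists_increasing_or_nonincreasing_subseq
    (fun x y : W₁ ⊕ W₂ => x.isLeft = y.isLeft) s
  · have hc : ∀ n, (s (g 0)).isLeft = (s (g n)).isLeft := by
      intro n
      rcases Nat.eq_zero_or_pos n with rfl | hn
      · rfl
      · exact hg 0 n hn
    cases h0 : s (g 0) with
    | inl w0 =>
      have hw : ∀ n, ∃ w, s (g n) = Sum.inl w := by
        intro n
        have := hc n
        rw [h0] at this
        cases hn : s (g n) with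
        | inl w => exact ⟨w, rfl⟩
        | inr w => rw [hn] at this; simp at this
      choose w hw using hw
      obtain ⟨m, n, hmn, hr⟩ := h1 w
      refine ⟨g m, g n, g.strictMono hmn, ?_⟩
      show s (g m) ≤ s (g n)
      rw [hw, hw, Sum.inl_le_inl_iff]
      exact hr
    | inr w0 =>
      have hw : ∀ n, ∃ w, s (g n) = Sum.inr w := by
        intro n
        have := hc n
        rw [h0] at this
        cases hn : s (g n) with
        | inl w => rw [hn] at this; simp at this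
        | inr w => exact ⟨w, rfl⟩
      choose w hw using hw
      obtain ⟨m, n, hmn, hr⟩ := h2 w
      refine ⟨g m, g n, g.strictMono hmn, ?_⟩
      show s (g m) ≤ s (g n)
      rw [hw, hw, Sum.inr_le_inr_iff]
      exact hr
  · exfalso
    have a := hg 0 1 (by norm_num)
    have b := hg 1 2 (by norm_num)
    have c := hg 0 2 (by norm_num)
    revert a b c
    cases (s (g 0)).isLeft <;> cases (s (g 1)).isLeft <;> cases (s (g 2)).isLeft <;> simp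

theorem cov_union {P : Type} [Preorder P] {x y : Set (UpperSet P)} (hx : Cov x) (hy : Cov y) :
    Cov (x ∪ y) := by
  classical
  obtain ⟨W₁, i₁, hW₁, g₁, hg₁, hs₁⟩ := hx
  obtain ⟨W₂, i₂, hW₂, g₂, hg₂, hs₂⟩ := hy
  have hm1 : Monotone (fun w : W₁ => (Sum.inl (Sum.inl w) : (W₁ ⊕ W₂) ⊕ Unit)) :=
    Sum.inl_mono.comp Sum.inl_mono
  have hm2 : Monotone (fun w : W₂ => (Sum.inl (Sum.inr w) : (W₁ ⊕ W₂) ⊕ Unit)) :=
    Sum.inl_mono.comp Sum.inr_mono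
  refine ⟨(W₁ ⊕ W₂) ⊕ Unit, inferInstance, sum_wqo (sum_wqo hW₁ hW₂) (Finite.wellQuasiOrdered _),
    fun U => if Sum.inr () ∈ U then g₁ (pull _ hm1 U) else g₂ (pull _ hm2 U), ?_, ?_⟩
  · intro p
    have h1 : {U : UpperSet ((W₁ ⊕ W₂) ⊕ Unit) |
        p ∈ (if Sum.inr () ∈ U then g₁ (pull _ hm1 U) else g₂ (pull _ hm2 U))} =
        {U | (Sum.inr () ∈ U ∧ p ∈ g₁ (pull _ hm1 U)) ∨
          (¬ Sum.inr () ∈ U ∧ p ∈ g₂ (pull _ hm2 U))} := by
      ext U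
      simp only [Set.mem_setOf_eq]
      by_cases h : Sum.inr () ∈ U <;> simp [h]
    rw [h1]
    refine or_mem (and_mem (gen_mem _) (pull_pred_mem _ hm1 (hg₁ p)))
      (and_mem (not_mem' (gen_mem _)) (pull_pred_mem _ hm2 (hg₂ p)))
  · intro V hV
    rcases hV with hV | hV
    · obtain ⟨U, hU⟩ := hs₁ V hV
      let E : UpperSet Unit := ⟨Set.univ, fun _ _ _ _ => trivial⟩
      refine ⟨mkSum (mkSum U ⊤) E, ?_⟩
      have h : (Sum.inr () : (W₁ ⊕ W₂) ⊕ Unit) ∈ mkSum (mkSum U ⊤) E :=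
        show () ∈ E from trivial
      beta_reduce
      rw [if_pos h]
      exact hU
    · obtain ⟨U, hU⟩ := hs₂ V hV
      let E : UpperSet Unit := ⟨∅, fun _ _ _ h => h⟩
      refine ⟨mkSum (mkSum ⊤ U) E, ?_⟩
      have h : ¬ (Sum.inr () : (W₁ ⊕ W₂) ⊕ Unit) ∈ mkSum (mkSum ⊤ U) E :=
        fun h => (show () ∈ (∅ : Set Unit) from h)
      beta_reduce
      rw [if_neg h]
      exact hU

theorem cov_biUnion {P ι : Type} [Preorder P] (s : Finset ι) (f : ι → Set (UpperSet P))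
    (h : ∀ i ∈ s, Cov (f i)) : Cov {V | ∃ i ∈ s, V ∈ f i} := by
  classical
  induction s using Finset.induction_on with
  | empty => simpa using cov_empty
  | insert a s ha ih =>
    have h1 := cov_union (h a (Finset.mem_insert_self a s))
      (ih fun i hi => h i (Finset.mem_insert_of_mem hi))
    refine cov_mono ?_ h1
    rintro V ⟨i, hi, hV⟩
    rcases Finset.mem_insert.1 hi with rfl | hi
    · exact Or.inl hV
    · exact Or.inr ⟨i, hi, hV⟩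

theorem cov_base {P : Type} [Preorder P] (U₀ : UpperSet P) (A B : Set P)
    (hD : Good {d | d ∉ U₀ ∧ ∀ b ∈ B, ¬ d ≤ b}) (hU : Good {u | u ∈ U₀ ∧ ∀ a ∈ A, ¬ a ≤ u})
    (hno : ∀ d, d ∉ U₀ → (∀ b ∈ B, ¬ d ≤ b) → ∀ u ∈ U₀, (∀ a ∈ A, ¬ a ≤ u) → ¬ d ≤ u) :
    Cov {V : UpperSet P | (∀ a ∈ A, a ∈ V) ∧ ∀ b ∈ B, b ∉ V} := by
  classical
  obtain ⟨W₁, i₁, hW₁, g₁, hg₁, hr₁, hs₁⟩ := hD
  obtain ⟨W₂, i₂, hW₂, g₂, hg₂, hr₂, hs₂⟩ := hU
  refine ⟨W₁ ⊕ W₂, inferInstance, sum_wqo hW₁ hW₂, fun U =>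
    ⟨{p | p ∈ g₁ (pull _ Sum.inl_mono U) ∨ p ∈ g₂ (pull _ Sum.inr_mono U) ∨
      (p ∈ U₀ ∧ ∃ a ∈ A, a ≤ p)}, ?_⟩, ?_, ?_⟩
  · intro p q hpq hp
    rcases hp with hp | hp | hp
    · have hpD := (hr₁ _).1 hp
      by_cases hq : q ∈ U₀
      · by_cases hq2 : ∃ a ∈ A, a ≤ q
        · exact Or.inr (Or.inr ⟨hq, hq2⟩)
        · push Not at hq2
          exact absurd hpq (hno p hpD.1 hpD.2 q hq hq2)
      · left
        exact (hr₁ _).2 p hp q ⟨hq, fun b hb hqb => hpD.2 b hb (hpq.trans hqb)⟩ hpq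
    · have hpD := (hr₂ _).1 hp
      have hq : q ∈ U₀ := U₀.upper hpq hpD.1
      by_cases hq2 : ∃ a ∈ A, a ≤ q
      · exact Or.inr (Or.inr ⟨hq, hq2⟩)
      · push Not at hq2
        right; left
        exact (hr₂ _).2 p hp q ⟨hq, hq2⟩ hpq
    · obtain ⟨hp1, a, ha, hap⟩ := hp
      exact Or.inr (Or.inr ⟨U₀.upper hpq hp1, a, ha, hap.trans hpq⟩)
  · intro p
    exact or_mem (pull_pred_mem _ Sum.inl_mono (hg₁ p))
      (or_mem (pull_pred_mem _ Sum.inr_mono (hg₂ p)) (const_mem _))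
  · rintro V ⟨hVA, hVB⟩
    obtain ⟨U₁, hU₁⟩ := hs₁ ({p | p ∈ V} ∩ {d | d ∉ U₀ ∧ ∀ b ∈ B, ¬ d ≤ b})
      ⟨inter_subset_right, by
        rintro p ⟨hp, _⟩ q hq hpq
        exact ⟨V.upper hpq hp, hq⟩⟩
    obtain ⟨U₂, hU₂⟩ := hs₂ ({p | p ∈ V} ∩ {u | u ∈ U₀ ∧ ∀ a ∈ A, ¬ a ≤ u})
      ⟨inter_subset_right, by
        rintro p ⟨hp, _⟩ q hq hpq
        exact ⟨V.upper hpq hp, hq⟩⟩
    refine ⟨mkSum U₁ U₂, ?_⟩
    ext p
    show (p ∈ g₁ (pull _ Sum.inl_mono (mkSum U₁ U₂)) ∨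
      p ∈ g₂ (pull _ Sum.inr_mono (mkSum U₁ U₂)) ∨ (p ∈ U₀ ∧ ∃ a ∈ A, a ≤ p)) ↔ p ∈ V
    rw [pull_inl_mkSum, pull_inr_mkSum, hU₁, hU₂]
    constructor
    · rintro (h | h | ⟨_, a, ha, hap⟩)
      · exact h.1
      · exact h.1
      · exact V.upper hap (hVA a ha)
    · intro hp
      by_cases hp0 : p ∈ U₀
      · by_cases hp2 : ∃ a ∈ A, a ≤ p
        · exact Or.inr (Or.inr ⟨hp0, hp2⟩)
        · push Not at hp2
          exact Or.inr (Or.inl ⟨hp, hp0, hp2⟩)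
      · exact Or.inl ⟨hp, hp0, fun b hb hpb => hVB b hb (V.upper hpb hp)⟩

theorem cov_list {P : Type} [Preorder P] (U₀ : UpperSet P) (D U : Set P) (hD : Good D)
    (hU : Good U) (L : List (Set P × Set P)) (hL : ∀ IJ ∈ L, ∀ i ∈ IJ.1, ∀ j ∈ IJ.2, i ≤ j) :
    ∀ A B : Set P, {d | d ∉ U₀ ∧ ∀ b ∈ B, ¬ d ≤ b} ⊆ D → {u | u ∈ U₀ ∧ ∀ a ∈ A, ¬ a ≤ u} ⊆ U →
      (∀ d, d ∉ U₀ → (∀ b ∈ B, ¬ d ≤ b) → ∀ u ∈ U₀, (∀ a ∈ A, ¬ a ≤ u) → d ≤ u →
        ∃ IJ ∈ L, d ∈ IJ.1 ∧ u ∈ IJ.2) →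
      Cov {V : UpperSet P | (∀ a ∈ A, a ∈ V) ∧ ∀ b ∈ B, b ∉ V} := by
  induction L with
  | nil =>
    intro A B hDB hUA hno
    refine cov_base U₀ A B (good_mono hDB hD) (good_mono hUA hU) ?_
    intro d hd hdb u hu hua hdu
    obtain ⟨IJ, hIJ, _⟩ := hno d hd hdb u hu hua hdu
    simp at hIJ
  | cons IJ L ih =>
    intro A B hDB hUA hno
    have hL' : ∀ IJ ∈ L, ∀ i ∈ IJ.1, ∀ j ∈ IJ.2, i ≤ j :=
      fun K hK => hL K (List.mem_cons_of_mem _ hK)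
    have h1 := ih hL' (A ∪ IJ.2) B hDB (by
      rintro u ⟨hu, hu2⟩
      exact hUA ⟨hu, fun a ha => hu2 a (Or.inl ha)⟩) (by
      intro d hd hdb u hu hua hdu
      obtain ⟨K, hK, hd2, hu2⟩ := hno d hd hdb u hu (fun a ha => hua a (Or.inl ha)) hdu
      rcases List.mem_cons.1 hK with rfl | hK
      · exact absurd le_rfl (hua u (Or.inr hu2))
      · exact ⟨K, hK, hd2, hu2⟩)
    have h2 := ih hL' A (B ∪ IJ.1) (by
      rintro u ⟨hu, hu2⟩
      exact hDB ⟨hu, fun a ha => hu2 a (Or.inl ha)⟩) hUA (by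
      intro d hd hdb u hu hua hdu
      obtain ⟨K, hK, hd2, hu2⟩ := hno d hd (fun a ha => hdb a (Or.inl ha)) u hu hua hdu
      rcases List.mem_cons.1 hK with rfl | hK
      · exact absurd le_rfl (hdb d (Or.inr hd2))
      · exact ⟨K, hK, hd2, hu2⟩)
    refine cov_mono ?_ (cov_union h1 h2)
    rintro V ⟨hVA, hVB⟩
    by_cases hex : ∃ i ∈ IJ.1, i ∈ V
    · obtain ⟨i, hi, hiV⟩ := hex
      left
      refine ⟨?_, hVB⟩
      rintro a (ha | ha)
      · exact hVA a ha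
      · exact V.upper (hL IJ List.mem_cons_self i hi a ha) hiV
    · push Not at hex
      right
      refine ⟨hVA, ?_⟩
      rintro b (hb | hb)
      · exact hVB b hb
      · exact hex b hb

end Pool.Agent.Helper626.PosetAlg
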