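import Pool.Agent.Helper626.PosetAlg.Basic

set_option autoImplicit false

namespace Pool.Agent.Helper626.PosetAlg

open Set

/-- `y` is witnessed by `C` -/
def Wit {P : Type} [Preorder P] (C : Set P) (y : P) : Prop :=
  ∃ c ∈ C, y ≤ c ∧ ∀ c' ∈ C, c' < c → c' ≤ y

open Classical in
/-- the greedy sequence -/
noncomputable def gseq {P : Type} [Preorder P] [Nonempty P] (S : Set P) : Ordinal.{0} → P :=
  WellFounded.fix (C := fun _ => P) Ordinal.lt_wf (fun α ih =>
    if h : ∃ y ∈ S, ¬ Wit {x | ∃ β, ∃ hβ : β < α, ih β hβ = x} y then h.choose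
      else Classical.arbitrary P)

open Classical in
theorem gseq_eq {P : Type} [Preorder P] [Nonempty P] (S : Set P) (α : Ordinal.{0}) :
    gseq S α = if h : ∃ y ∈ S, ¬ Wit (gseq S '' Iio α) y then h.choose
      else Classical.arbitrary P := by
  have h1 : gseq S α = if h : ∃ y ∈ S, ¬ Wit {x | ∃ β, ∃ _ : β < α, gseq S β = x} y
      then h.choose else Classical.arbitrary P := by
    unfold gseq
    rw [WellFounded.fix_eq]
  have h2 : {x | ∃ β, ∃ _ : β < α, gseq S β = x} = gseq S '' Iio α := by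
    ext x
    simp
  rw [h2] at h1
  exact h1

theorem gseq_spec {P : Type} [Preorder P] [Nonempty P] (S : Set P) (α : Ordinal.{0})
    (h : ∃ y ∈ S, ¬ Wit (gseq S '' Iio α) y) :
    gseq S α ∈ S ∧ ¬ Wit (gseq S '' Iio α) (gseq S α) := by
  classical
  have h1 := gseq_eq S α
  rw [dif_pos h] at h1
  rw [h1]
  exact h.choose_spec

theorem greedy_core {P : Type} [Preorder P] [Nonempty P] (S : Set P) :
    ∃ (α₀ : Ordinal.{0}) (f : Ordinal.{0} → P),
      (∀ β < α₀, f β ∈ S ∧ ¬ Wit (f '' Iio β) (f β)) ∧ ∀ y ∈ S, Wit (f '' Iio α₀) y := by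
  have h1 : ∃ α : Ordinal.{0}, ¬ ∃ y ∈ S, ¬ Wit (gseq S '' Iio α) y := by
    by_contra hcon
    push_neg at hcon
    have hinj : Function.Injective (gseq S) := by
      have key : ∀ β α : Ordinal.{0}, β < α → gseq S β ≠ gseq S α := by
        intro β α hβα heq
        obtain ⟨y, hy, hy2⟩ := hcon α
        have hs := gseq_spec S α ⟨y, hy, hy2⟩
        apply hs.2
        refine ⟨gseq S β, ⟨β, hβα, rfl⟩, by rw [heq], ?_⟩
        intro c' _ hc'
        rw [← heq]
        exact hc'.le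
      intro a b hab
      rcases lt_trichotomy a b with h | h | h
      · exact absurd hab (key a b h)
      · exact h
      · exact absurd hab.symm (key b a h)
    exact not_injective_of_ordinal _ hinj
  let α₀ := sInf {α : Ordinal.{0} | ¬ ∃ y ∈ S, ¬ Wit (gseq S '' Iio α) y}
  have hα : ¬ ∃ y ∈ S, ¬ Wit (gseq S '' Iio α₀) y := csInf_mem (s := {α : Ordinal.{0} | ¬ ∃ y ∈ S, ¬ Wit (gseq S '' Iio α) y}) h1
  refine ⟨α₀, gseq S, ?_, ?_⟩
  · intro β hβ
    apply gseq_spec
    by_contra h2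
    exact absurd (csInf_le' (s := {α : Ordinal.{0} | ¬ ∃ y ∈ S, ¬ Wit (gseq S '' Iio α) y}) h2)
      (not_le.2 hβ)
  · intro y hy
    by_contra h2
    exact hα ⟨y, hy, h2⟩

theorem greedy_wf {P : Type} [Preorder P] (hP : FAC P) (S : Set P)
    (α₀ : Ordinal.{0}) (f : Ordinal.{0} → P)
    (hf : ∀ β < α₀, f β ∈ S ∧ ¬ Wit (f '' Iio β) (f β)) :
    WellFounded (fun a b : Iio α₀ => f a < f b) := by
  classical
  by_contra hwf
  set R : Iio α₀ → Iio α₀ → Prop := fun a b => f a < f b with hR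
  have hN : ∃ a : Iio α₀, ¬ Acc R a := by
    by_contra h
    push_neg at h
    exact hwf ⟨h⟩
  have wf0 : WellFounded (fun a b : Iio α₀ => a < b) := wellFounded_lt
  let N : Set (Iio α₀) := {a | ¬ Acc R a}
  have hNne : N.Nonempty := hN
  have step : ∀ a : Iio α₀, a ∈ N → ∃ b, b ∈ N ∧ R b a ∧ ∀ c ∈ N, R c a → b ≤ c := by
    intro a ha
    have h1 : ({b | b ∈ N ∧ R b a} : Set (Iio α₀)).Nonempty := by
      by_contra h2
      apply ha
      constructor
      intro b hb
      by_contra h3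
      exact h2 ⟨b, h3, hb⟩
    refine ⟨wf0.min _ h1, (wf0.min_mem _ h1).1, (wf0.min_mem _ h1).2, ?_⟩
    intro c hc hca
    have h4 : c ∈ ({b | b ∈ N ∧ R b a} : Set (Iio α₀)) := ⟨hc, hca⟩
    exact not_lt.1 (wf0.not_lt_min _ h4)
  choose! nx hnx1 hnx2 hnx3 using step
  let a0 : Iio α₀ := wf0.min N hNne
  have ha0 : a0 ∈ N := wf0.min_mem N hNne
  have ha0min : ∀ c ∈ N, a0 ≤ c := fun c hc => not_lt.1 (wf0.not_lt_min N (x := c) hc)
  let a : ℕ → Iio α₀ := fun n => nx^[n] a0
  have hasucc : ∀ n, a (n + 1) = nx (a n) := fun n => Function.iterate_succ_apply' nx n a0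
  have haN : ∀ n, a n ∈ N := by
    intro n
    induction n with
    | zero => exact ha0
    | succ n ih => rw [hasucc]; exact hnx1 _ ih
  have haR : ∀ n, f (a (n + 1)) < f (a n) := by
    intro n
    rw [hasucc]; exact hnx2 _ (haN n)
  have hamin : ∀ n, ∀ c ∈ N, f c < f (a n) → a (n + 1) ≤ c := by
    intro n c hc h
    rw [hasucc]; exact hnx3 _ (haN n) c hc h
  have hlt : ∀ n, a n < a (n + 1) := by
    intro n
    have hne : a n ≠ a (n + 1) := by
      intro h
      have := haR n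
      rw [← h] at this
      exact lt_irrefl _ this
    refine lt_of_le_of_ne ?_ hne
    cases n with
    | zero => exact ha0min _ (haN 1)
    | succ n => exact hamin n _ (haN (n + 2)) ((haR (n + 1)).trans (haR n))
  have hanti : ∀ n m, n ≤ m → f (a m) ≤ f (a n) := by
    intro n m hnm
    induction m, hnm using Nat.le_induction with
    | base => exact le_rfl
    | succ m _ ih => exact (haR m).le.trans ih
  have hd : ∀ n, ∃ d : Iio α₀, Acc R d ∧ f d < f (a n) ∧ ¬ f d ≤ f (a (n + 1)) := by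
    intro n
    have h1 := (hf (a (n + 1)) (a (n + 1)).2).2
    unfold Wit at h1
    push_neg at h1
    obtain ⟨c', ⟨d, hd, rfl⟩, hc1, hc2⟩ := h1 (f (a n)) ⟨(a n : Ordinal.{0}), hlt n, rfl⟩ (haR n).le
    have hdα : d < α₀ := lt_trans hd (a (n + 1)).2
    refine ⟨⟨d, hdα⟩, ?_, hc1, hc2⟩
    by_contra hacc
    have h2 := hamin n ⟨d, hdα⟩ hacc hc1
    exact absurd h2 (not_le.2 hd)
  choose d hd1 hd2 hd3 using hd
  have hdn : ∀ n m, n < m → ¬ f (d n) ≤ f (d m) := by
    intro n m hnm h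
    apply hd3 n
    exact h.trans ((hd2 m).le.trans (hanti (n + 1) m hnm))
  obtain ⟨g, hg | hg⟩ := exists_increasing_or_nonincreasing_subseq (· > ·) (fun n => f (d n))
  · have hacc := hd1 (g 0)
    rw [acc_iff_isEmpty_descending_chain] at hacc
    exact hacc.false ⟨fun n => d (g n), rfl, fun n => hg n (n + 1) (Nat.lt_succ_self n)⟩
  · obtain ⟨i, j, hij, h1⟩ := hP (fun n => f (d (g n)))
    have hgij : g i < g j := g.strictMono hij
    rcases h1 with h1 | h1
    · exact hdn _ _ hgij h1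
    · exact hg i j hij (lt_of_le_not_ge h1 (hdn _ _ hgij))

/-- The greedy lemma. -/
theorem greedy {P : Type} [Preorder P] (hP : FAC P) (S : Set P) :
    ∃ C : Set P, C ⊆ S ∧ (∀ y ∈ S, Wit C y) ∧ WellQuasiOrdered (fun a b : C => (a : P) ≤ b) := by
  rcases S.eq_empty_or_nonempty with hS | ⟨s, hs⟩
  · refine ⟨∅, by simp, by simp [hS], ?_⟩
    exact wellQuasiOrdered_of_isEmpty _
  haveI : Nonempty P := ⟨s⟩
  obtain ⟨α₀, f, hf1, hf2⟩ := greedy_core S
  have hwf := greedy_wf hP S α₀ f hf1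
  refine ⟨f '' Iio α₀, ?_, hf2, ?_⟩
  · rintro _ ⟨β, hβ, rfl⟩
    exact (hf1 β hβ).1
  · intro s
    by_contra hcon
    push_neg at hcon
    choose β hβ1 hβ2 using fun n => (s n).2
    obtain ⟨g, hg | hg⟩ := exists_increasing_or_nonincreasing_subseq (· > ·) (fun n => (s n : P))
    · rw [wellFounded_iff_isEmpty_descending_chain] at hwf
      refine hwf.false ⟨fun n => ⟨β (g n), hβ1 (g n)⟩, fun n => ?_⟩
      show f (β (g (n + 1))) < f (β (g n))
      rw [hβ2, hβ2]
      exact hg n (n + 1) (Nat.lt_succ_self n)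
    · obtain ⟨i, j, hij, h1⟩ := hP (fun n => (s (g n) : P))
      have hgij : g i < g j := g.strictMono hij
      rcases h1 with h1 | h1
      · exact hcon _ _ hgij h1
      · exact hg i j hij (lt_of_le_not_ge h1 (hcon _ _ hgij))

end Pool.Agent.Helper626.PosetAlg
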