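import Pool.Agent.Helper626.PosetAlg.Cov

set_option autoImplicit false

namespace Pool.Agent.Helper626.PosetAlg

open Set

/-- superatomicity of the poset algebra: every quotient by an ideal is atomic -/
def SA (P : Type) [Preorder P] : Prop :=
  ∀ I : Set (Set (UpperSet P)), I ⊆ ((F P : BooleanSubalgebra _) : Set (Set (UpperSet P))) →
    ∅ ∈ I → (∀ x ∈ I, ∀ y ∈ I, x ∪ y ∈ I) → (∀ x ∈ I, ∀ y ∈ F P, y ⊆ x → y ∈ I) →
    ∀ b ∈ F P, b ∉ I → ∃ a ∈ F P, a ⊆ b ∧ a ∉ I ∧ ∀ c ∈ F P, c ⊆ a → c ∈ I ∨ a \ c ∈ I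

theorem fac_of_sa {P : Type} [PartialOrder P] (hsa : SA P) : FAC P := by
  classical
  intro s
  by_contra hcon
  push Not at hcon
  have hinc : ∀ i j, i ≠ j → ¬ s i ≤ s j := by
    intro i j hij
    rcases lt_or_gt_of_ne hij with h | h
    · exact (hcon i j h).1
    · exact (hcon j i h).2
  let FA : BooleanSubalgebra (Set (UpperSet P)) :=
    BooleanSubalgebra.closure (Set.range fun n : ℕ => {U : UpperSet P | s n ∈ U})
  have hFA : FA ≤ F P := by
    rw [BooleanSubalgebra.closure_le]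
    rintro _ ⟨n, rfl⟩
    exact gen_mem (s n)
  have hG : ∀ n, {U : UpperSet P | s n ∈ U} ∈ FA := fun n =>
    BooleanSubalgebra.subset_closure ⟨n, rfl⟩
  have hsupp : ∀ y ∈ FA, ∃ N, ∀ U U' : UpperSet P, (∀ n < N, s n ∈ U ↔ s n ∈ U') →
      (U ∈ y ↔ U' ∈ y) := by
    intro y hy
    induction hy using BooleanSubalgebra.closure_bot_sup_induction with
    | mem x hx =>
      obtain ⟨n, rfl⟩ := hx
      exact ⟨n + 1, fun U U' h => h n (Nat.lt_succ_self n)⟩
    | bot => exact ⟨0, fun U U' _ => Iff.rfl⟩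
    | sup x _ y _ ihx ihy =>
      obtain ⟨N, hN⟩ := ihx
      obtain ⟨M, hM⟩ := ihy
      refine ⟨max N M, fun U U' h => ?_⟩
      have h1 := hN U U' (fun n hn => h n (lt_of_lt_of_le hn (le_max_left _ _)))
      have h2 := hM U U' (fun n hn => h n (lt_of_lt_of_le hn (le_max_right _ _)))
      exact or_congr h1 h2
    | compl x _ ih =>
      obtain ⟨N, hN⟩ := ih
      exact ⟨N, fun U U' h => not_congr (hN U U' h)⟩
  have hsplit : ∀ y ∈ FA, y.Nonempty → ∃ n, (y ∩ {U : UpperSet P | s n ∈ U}).Nonempty ∧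
      (y \ {U : UpperSet P | s n ∈ U}).Nonempty := by
    intro y hy ⟨U, hU⟩
    obtain ⟨N, hN⟩ := hsupp y hy
    let U1 : UpperSet P := ⟨{p | (∃ n < N, s n ∈ U ∧ s n ≤ p) ∨ s N ≤ p}, by
      rintro p q hpq (⟨n, hn, h1, h2⟩ | h)
      · exact Or.inl ⟨n, hn, h1, h2.trans hpq⟩
      · exact Or.inr (h.trans hpq)⟩
    let U2 : UpperSet P := ⟨{p | ∃ n < N, s n ∈ U ∧ s n ≤ p}, by
      rintro p q hpq ⟨n, hn, h1, h2⟩
      exact ⟨n, hn, h1, h2.trans hpq⟩⟩
    refine ⟨N, ⟨U1, ?_, ?_⟩, ⟨U2, ?_, ?_⟩⟩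
    · refine (hN U U1 ?_).1 hU
      intro n hn
      constructor
      · intro h
        exact Or.inl ⟨n, hn, h, le_rfl⟩
      · rintro (⟨m, hm, h1, h2⟩ | h)
        · by_cases hmn : m = n
          · subst hmn; exact h1
          · exact absurd h2 (hinc m n hmn)
        · exact absurd h (hinc N n (Nat.ne_of_gt hn))
    · exact Or.inr le_rfl
    · refine (hN U U2 ?_).1 hU
      intro n hn
      constructor
      · intro h
        exact ⟨n, hn, h, le_rfl⟩
      · rintro ⟨m, hm, h1, h2⟩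
        by_cases hmn : m = n
        · subst hmn; exact h1
        · exact absurd h2 (hinc m n hmn)
    · rintro ⟨m, hm, h1, h2⟩
      exact hinc m N (Nat.ne_of_lt hm) h2
  -- Zorn
  let Z : Set (Set (Set (UpperSet P))) := {I | I ⊆ ((F P : BooleanSubalgebra _) : Set _) ∧ ∅ ∈ I ∧
    (∀ x ∈ I, ∀ y ∈ I, x ∪ y ∈ I) ∧ (∀ x ∈ I, ∀ y ∈ F P, y ⊆ x → y ∈ I) ∧
    ∀ y ∈ I, y ∈ FA → y = ∅}
  have hZ0 : ({∅} : Set (Set (UpperSet P))) ∈ Z := by
    refine ⟨?_, rfl, ?_, ?_, ?_⟩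
    · rintro x hx
      rw [Set.mem_singleton_iff] at hx
      subst hx
      exact empty_mem'
    · rintro x hx y hy
      rw [Set.mem_singleton_iff] at hx hy
      subst hx hy
      simp
    · rintro x hx y _ hyx
      rw [Set.mem_singleton_iff] at hx
      subst hx
      simpa using hyx
    · rintro y hy _
      exact hy
  obtain ⟨I, _, hImax⟩ := zorn_subset_nonempty Z (by
    intro c hc hchain hne
    refine ⟨⋃₀ c, ⟨?_, ?_, ?_, ?_, ?_⟩, fun s hs => subset_sUnion_of_mem hs⟩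
    · rintro x ⟨J, hJ, hx⟩
      exact (hc hJ).1 hx
    · obtain ⟨J, hJ⟩ := hne
      exact ⟨J, hJ, (hc hJ).2.1⟩
    · rintro x ⟨J, hJ, hx⟩ y ⟨K, hK, hy⟩
      rcases hchain.total hJ hK with h | h
      · exact ⟨K, hK, (hc hK).2.2.1 x (h hx) y hy⟩
      · exact ⟨J, hJ, (hc hJ).2.2.1 x hx y (h hy)⟩
    · rintro x ⟨J, hJ, hx⟩ y hy hyx
      exact ⟨J, hJ, (hc hJ).2.2.2.1 x hx y hy hyx⟩
    · rintro y ⟨J, hJ, hy⟩ hyF
      exact (hc hJ).2.2.2.2 y hy hyF) {∅} hZ0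
  obtain ⟨hI1, hI2, hI3, hI4, hI5⟩ := hImax.prop
  have huniv : (Set.univ : Set (UpperSet P)) ∉ I := by
    intro h
    have h1 := hI5 _ h (BooleanSubalgebra.top_mem (L := FA))
    have h2 : (⊤ : UpperSet P) ∈ (Set.univ : Set (UpperSet P)) := trivial
    rw [h1] at h2
    exact h2
  obtain ⟨a, haF, _, haI, hat⟩ := hsa I hI1 hI2 hI3 hI4 Set.univ univ_mem' huniv
  -- the ideal generated by `I` and `a`
  let J : Set (Set (UpperSet P)) := {x | x ∈ F P ∧ ∃ i ∈ I, x ⊆ a ∪ i}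
  have hIJ : I ⊆ J := fun x hx => ⟨hI1 hx, x, hx, subset_union_right⟩
  have haJ : a ∈ J := ⟨haF, ∅, hI2, subset_union_left⟩
  have hJZ : J ∉ Z := by
    intro hJ
    have := hImax.le_of_ge hJ hIJ
    exact haI (this haJ)
  have hy : ∃ y ∈ J, y ∈ FA ∧ y.Nonempty := by
    by_contra hno
    push Not at hno
    apply hJZ
    refine ⟨fun x hx => hx.1, ⟨empty_mem', ∅, hI2, empty_subset _⟩, ?_, ?_, ?_⟩
    · rintro x ⟨hx, i, hi, hxi⟩ y ⟨hy, j, hj, hyj⟩
      refine ⟨union_mem hx hy, i ∪ j, hI3 i hi j hj, ?_⟩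
      intro z hz
      rcases hz with hz | hz
      · rcases hxi hz with h | h
        · exact Or.inl h
        · exact Or.inr (Or.inl h)
      · rcases hyj hz with h | h
        · exact Or.inl h
        · exact Or.inr (Or.inr h)
    · rintro x ⟨hx, i, hi, hxi⟩ y hy hyx
      exact ⟨hy, i, hi, hyx.trans hxi⟩
    · intro y hy hyF
      have := hno y hy hyF
      simpa using this
  obtain ⟨y, ⟨hyF, i, hi, hyi⟩, hyFA, hyne⟩ := hy
  obtain ⟨n, hn1, hn2⟩ := hsplit y hyFA hyne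
  rcases hat (a ∩ {U : UpperSet P | s n ∈ U}) (inter_mem' haF (gen_mem _)) inter_subset_left
    with h | h
  · have h1 : y ∩ {U : UpperSet P | s n ∈ U} ∈ I := by
      refine hI4 _ (hI3 _ h i hi) _ (inter_mem' hyF (gen_mem _)) ?_
      rintro z ⟨hz, hzn⟩
      rcases hyi hz with h | h
      · exact Or.inl ⟨h, hzn⟩
      · exact Or.inr h
    have h2 := hI5 _ h1 (BooleanSubalgebra.inf_mem hyFA (hG n))
    rw [h2] at hn1
    exact Set.not_nonempty_empty hn1
  · have h1 : y \ {U : UpperSet P | s n ∈ U} ∈ I := by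
      refine hI4 _ (hI3 _ h i hi) _ (diff_mem' hyF (gen_mem _)) ?_
      rintro z ⟨hz, hzn⟩
      rcases hyi hz with h | h
      · exact Or.inl ⟨h, fun h' => hzn h'.2⟩
      · exact Or.inr h
    have h2 := hI5 _ h1 (BooleanSubalgebra.sdiff_mem hyFA (hG n))
    rw [h2] at hn2
    exact Set.not_nonempty_empty hn2

theorem cov_univ_of_sa {P : Type} [PartialOrder P] (hsa : SA P) :
    Cov (Set.univ : Set (UpperSet P)) := by
  classical
  have hfac := fac_of_sa hsa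
  by_contra hcov
  obtain ⟨a, haF, _, haI, hat⟩ := hsa {x | x ∈ F P ∧ Cov x} (fun x hx => hx.1)
    ⟨empty_mem', cov_empty⟩ (fun x hx y hy => ⟨union_mem hx.1 hy.1, cov_union hx.2 hy.2⟩)
    (fun x hx y hy hyx => ⟨hy, cov_mono hyx hx.2⟩) Set.univ univ_mem' (fun h => hcov h.2)
  have haC : ¬ Cov a := fun h => haI ⟨haF, h⟩
  -- finite support
  have hsupp : ∀ y ∈ F P, ∃ N : Finset P, ∀ U U' : UpperSet P, (∀ n ∈ N, n ∈ U ↔ n ∈ U') →
      (U ∈ y ↔ U' ∈ y) := by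
    intro y hy
    induction hy using BooleanSubalgebra.closure_bot_sup_induction with
    | mem x hx =>
      obtain ⟨n, rfl⟩ := hx
      exact ⟨{n}, fun U U' h => h n (Finset.mem_singleton_self n)⟩
    | bot => exact ⟨∅, fun U U' _ => Iff.rfl⟩
    | sup x _ y _ ihx ihy =>
      obtain ⟨N, hN⟩ := ihx
      obtain ⟨M, hM⟩ := ihy
      refine ⟨N ∪ M, fun U U' h => ?_⟩
      have h1 := hN U U' (fun n hn => h n (Finset.mem_union_left _ hn))
      have h2 := hM U U' (fun n hn => h n (Finset.mem_union_right _ hn))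
      exact or_congr h1 h2
    | compl x _ ih =>
      obtain ⟨N, hN⟩ := ih
      exact ⟨N, fun U U' h => not_congr (hN U U' h)⟩
  obtain ⟨N, hN⟩ := hsupp a haF
  let bs : Finset P → Finset P → Set (UpperSet P) := fun Q T =>
    {V | (∀ q ∈ Q, q ∈ V) ∧ ∀ t ∈ T, t ∉ V}
  have hbsF : ∀ Q T, bs Q T ∈ F P := by
    intro Q T
    exact and_mem (forall_finset_mem Q (fun q V => q ∈ V) (fun q _ => gen_mem q))
      (forall_finset_mem T (fun t V => t ∉ V) (fun t _ => not_mem' (gen_mem t)))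
  have hex : ∃ Q T : Finset P, bs Q T ⊆ a ∧ ¬ Cov (bs Q T) := by
    by_contra hno
    push Not at hno
    apply haC
    refine cov_mono ?_ (cov_biUnion (N.powerset.filter (fun Q => bs Q (N \ Q) ⊆ a))
      (fun Q => bs Q (N \ Q)) (fun Q hQ => hno Q (N \ Q) (Finset.mem_filter.1 hQ).2))
    intro V hV
    refine ⟨N.filter (fun n => n ∈ V), ?_, ?_, ?_⟩
    · rw [Finset.mem_filter, Finset.mem_powerset]
      refine ⟨Finset.filter_subset _ _, ?_⟩
      intro V' hV'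
      refine (hN V V' ?_).1 hV
      intro n hn
      constructor
      · intro h
        exact hV'.1 n (Finset.mem_filter.2 ⟨hn, h⟩)
      · intro h
        by_contra hnV
        refine hV'.2 n ?_ h
        rw [Finset.mem_sdiff]
        exact ⟨hn, fun h' => hnV (Finset.mem_filter.1 h').2⟩
    · intro q hq
      exact (Finset.mem_filter.1 hq).2
    · intro t ht htV
      rw [Finset.mem_sdiff] at ht
      exact ht.2 (Finset.mem_filter.2 ⟨ht.1, htV⟩)
  obtain ⟨Q, T, hba, hbC⟩ := hex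
  set b := bs Q T with hb
  have hbat : ∀ c ∈ F P, c ⊆ b → Cov c ∨ Cov (b \ c) := by
    intro c hc hcb
    rcases hat c hc (hcb.trans hba) with h | h
    · exact Or.inl h.2
    · exact Or.inr (cov_mono (by intro z hz; exact ⟨hba hz.1, hz.2⟩) h.2)
  let U₀ : UpperSet P := ⟨{p | ¬ Cov (b ∩ {U | p ∈ U})}, by
    intro p q hpq hp hq
    exact hp (cov_mono (by intro U hU; exact ⟨hU.1, U.upper hpq hU.2⟩) hq)⟩
  have hU₀1 : ∀ p ∈ U₀, Cov (b \ {U | p ∈ U}) := by
    intro p hp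
    rcases hbat (b ∩ {U | p ∈ U}) (inter_mem' (hbsF Q T) (gen_mem p)) inter_subset_left with h | h
    · exact absurd h hp
    · exact cov_mono (by intro z hz; exact ⟨hz.1, fun h' => hz.2 h'.2⟩) h
  have hU₀2 : ∀ p, p ∉ U₀ → Cov (b ∩ {U | p ∈ U}) := by
    intro p hp
    by_contra h
    exact hp h
  have hQ : ∀ q ∈ Q, q ∈ U₀ := by
    intro q hq h
    exact hbC (cov_mono (by intro z hz; exact ⟨hz, hz.1 q hq⟩) h)
  have hT : ∀ t ∈ T, t ∉ U₀ := by
    intro t ht h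
    exact h (cov_mono (by intro z hz; exact hz.1.2 t ht hz.2) cov_empty)
  let D : Set P := {d | d ∉ U₀ ∧ ∀ t ∈ T, ¬ d ≤ t}
  let U : Set P := {u | u ∈ U₀ ∧ ∀ q ∈ Q, ¬ q ≤ u}
  have hDgood : Good D := by
    refine caseA hfac D ?_
    intro d hd
    obtain ⟨W, iW, hW, g, hg1, hg2⟩ := hU₀2 d hd.1
    refine ⟨W, iW, hW, fun X => {p | p ∈ g X ∧ p ∈ D \ {x | d ≤ x}}, ?_, ?_, ?_⟩
    · intro p
      exact and_mem (hg1 p) (const_mem _)
    · intro X
      refine ⟨fun p hp => hp.2, ?_⟩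
      rintro p ⟨hp, _⟩ q hq hpq
      exact ⟨(g X).upper hpq hp, hq⟩
    · intro V hV
      let V' : UpperSet P := ⟨{p | (∃ v ∈ V, v ≤ p) ∨ d ≤ p ∨ ∃ q ∈ Q, q ≤ p}, by
        rintro p p' hpp' (⟨v, hv, h⟩ | h | ⟨q, hq, h⟩)
        · exact Or.inl ⟨v, hv, h.trans hpp'⟩
        · exact Or.inr (Or.inl (h.trans hpp'))
        · exact Or.inr (Or.inr ⟨q, hq, h.trans hpp'⟩)⟩
      have hV'b : V' ∈ b ∩ {U | d ∈ U} := by
        refine ⟨⟨?_, ?_⟩, ?_⟩
        · intro q hq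
          exact Or.inr (Or.inr ⟨q, hq, le_rfl⟩)
        · rintro t ht (⟨v, hv, h⟩ | h | ⟨q, hq, h⟩)
          · exact (hV.1 hv).1.2 t ht h
          · exact hd.2 t ht h
          · exact hT t ht (U₀.upper h (hQ q hq))
        · exact Or.inr (Or.inl le_rfl)
      obtain ⟨X, hX⟩ := hg2 V' hV'b
      refine ⟨X, ?_⟩
      ext p
      show (p ∈ g X ∧ p ∈ D \ {x | d ≤ x}) ↔ p ∈ V
      rw [hX]
      constructor
      · rintro ⟨⟨v, hv, h⟩ | h | ⟨q, hq, h⟩, hpD⟩
        · exact hV.2 v hv p hpD h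
        · exact absurd h hpD.2
        · exact absurd (U₀.upper h (hQ q hq)) hpD.1.1
      · intro hp
        exact ⟨Or.inl ⟨p, hp, le_rfl⟩, hV.1 hp⟩
  have hUgood : Good U := by
    refine good_dual (caseA hfac.dual (OrderDual.ofDual ⁻¹' U) ?_)
    intro u' hu'
    have hu : OrderDual.ofDual u' ∈ U := hu'
    set u : P := OrderDual.ofDual u' with hudef
    refine good_dual' (S := U \ {x | x ≤ u}) ?_
    obtain ⟨W, iW, hW, g, hg1, hg2⟩ := hU₀1 u hu.1
    refine ⟨W, iW, hW, fun X => {p | p ∈ g X ∧ p ∈ U \ {x | x ≤ u}}, ?_, ?_, ?_⟩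
    · intro p
      exact and_mem (hg1 p) (const_mem _)
    · intro X
      refine ⟨fun p hp => hp.2, ?_⟩
      rintro p ⟨hp, _⟩ q hq hpq
      exact ⟨(g X).upper hpq hp, hq⟩
    · intro V hV
      let V' : UpperSet P := ⟨{p | (∀ t ∈ T, ¬ p ≤ t) ∧ ¬ p ≤ u ∧
          ∀ w ∈ U \ {x | x ≤ u}, w ∉ V → ¬ p ≤ w}, by
        rintro p p' hpp' ⟨h1, h2, h3⟩
        exact ⟨fun t ht h => h1 t ht (hpp'.trans h), fun h => h2 (hpp'.trans h),
          fun w hw hwV h => h3 w hw hwV (hpp'.trans h)⟩⟩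
      have hV'b : V' ∈ b \ {U | u ∈ U} := by
        refine ⟨⟨?_, ?_⟩, ?_⟩
        · intro q hq
          refine ⟨?_, hu.2 q hq, ?_⟩
          · intro t ht h
            exact hT t ht (U₀.upper h (hQ q hq))
          · intro w hw _
            exact hw.1.2 q hq
        · intro t ht h
          exact h.1 t ht le_rfl
        · intro h
          exact h.2.1 le_rfl
      obtain ⟨X, hX⟩ := hg2 V' hV'b
      refine ⟨X, ?_⟩
      ext p
      show (p ∈ g X ∧ p ∈ U \ {x | x ≤ u}) ↔ p ∈ V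
      rw [hX]
      constructor
      · rintro ⟨⟨_, _, h3⟩, hpU⟩
        by_contra hpV
        exact h3 p hpU hpV le_rfl
      · intro hp
        have hpU := hV.1 hp
        refine ⟨⟨?_, hpU.2, ?_⟩, hpU⟩
        · intro t ht h
          exact hT t ht (U₀.upper h hpU.1.1)
        · intro w hw hwV h
          exact hwV (hV.2 p hp w hw h)
  obtain ⟨Q', T', hQ', hT', L, hL, hc⟩ := rect hfac D U
  have h1 := cov_list U₀ D U hDgood hUgood L hL ({x | x ∈ Q} ∪ {x | x ∈ T'})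
    ({x | x ∈ T} ∪ {x | x ∈ Q'})
    (fun d hd => ⟨hd.1, fun t ht => hd.2 t (Or.inl ht)⟩)
    (fun u hu => ⟨hu.1, fun q hq => hu.2 q (Or.inl hq)⟩) (by
      intro d hd hdb u hu hua hdu
      rcases hc d ⟨hd, fun t ht => hdb t (Or.inl ht)⟩ u ⟨hu, fun q hq => hua q (Or.inl hq)⟩ hdu
        with ⟨q, hq, h⟩ | ⟨t, ht, h⟩ | h
      · exact absurd h (hdb q (Or.inr hq))
      · exact absurd h (hua t (Or.inr ht))
      · exact h)
  have h2 := cov_biUnion Q' (fun q => b ∩ {U | q ∈ U}) (fun q hq => hU₀2 q (hQ' q hq).1)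
  have h3 := cov_biUnion T' (fun t => b \ {U | t ∈ U}) (fun t ht => hU₀1 t (hT' t ht).1)
  apply hbC
  refine cov_mono ?_ (cov_union h1 (cov_union h2 h3))
  intro V hV
  by_cases hq : ∃ q ∈ Q', q ∈ V
  · obtain ⟨q, hq, hqV⟩ := hq
    exact Or.inr (Or.inl ⟨q, hq, hV, hqV⟩)
  · by_cases ht : ∃ t ∈ T', t ∉ V
    · obtain ⟨t, ht, htV⟩ := ht
      exact Or.inr (Or.inr ⟨t, ht, hV, htV⟩)
    · push Not at hq ht
      left
      refine ⟨?_, ?_⟩
      · rintro x (hx | hx)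
        · exact hV.1 x hx
        · exact ht x hx
      · rintro x (hx | hx)
        · exact hV.2 x hx
        · exact hq x hx

theorem main {P : Type} [PartialOrder P] (hsa : SA P) :
    ∃ (W : Type) (_ : Preorder W), WellQuasiOrdered (fun x y : W => x ≤ y) ∧
      ∃ g : UpperSet W → UpperSet P, (∀ x ∈ F P, g ⁻¹' x ∈ F W) ∧ Function.Surjective g := by
  obtain ⟨W, iW, hW, g, hg1, hg2⟩ := cov_univ_of_sa hsa
  exact ⟨W, iW, hW, g, preimage_mem g hg1, fun V => hg2 V trivial⟩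

end Pool.Agent.Helper626.PosetAlg
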